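import Mathlib

/-!
Many even permutations have a long cycle, hence a power of small support.
-/

set_option autoImplicit false

namespace Pool.Agent.Helper172.GC

open Equiv Equiv.Perm Finset

open Classical in
/-- The cycles of length `k`. -/
noncomputable def cyc (n k : ℕ) : Finset (Perm (Fin n)) :=
  Finset.univ.filter (fun c => c.cycleType = {k})

open Classical in
/-- The even permutations disjoint from `c`. -/
noncomputable def evd {n : ℕ} (c : Perm (Fin n)) : Finset (Perm (Fin n)) :=
  Finset.univ.filter (fun r => Perm.Disjoint c r ∧ Perm.sign r = 1)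

open Classical in
/-- Even permutations with a power of small support. -/
noncomputable def goodSet (n s : ℕ) : Finset (Perm (Fin n)) :=
  Finset.univ.filter (fun x => Perm.sign x = 1 ∧ ∃ m : ℕ, m ≠ 0 ∧ m ≤ n ∧ (x ^ m).support.card ≤ s)

theorem card_cyc {n k : ℕ} (hk : 2 ≤ k) (hkn : k ≤ n) :
    (cyc n k).card = (k - 1).factorial * n.choose k := by
  have h := Perm.card_of_cycleType_singleton (α := Fin n) hk (by simpa using hkn)
  rw [Fintype.card_fin] at h
  rw [← h]
  unfold cyc
  congr 1

theorem mem_cyc {n k : ℕ} {c : Perm (Fin n)} (h : c ∈ cyc n k) :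
    c.IsCycle ∧ c.support.card = k := by
  unfold cyc at h
  rw [Finset.mem_filter] at h
  have h1 : c.IsCycle := by
    rw [← card_cycleType_eq_one, h.2]
    simp
  refine ⟨h1, ?_⟩
  have h2 := h1.cycleType
  rw [h.2] at h2
  exact (Multiset.singleton_inj.mp h2).symm

theorem card_evd {n k : ℕ} (c : Perm (Fin n)) (hc : c.support.card = k) (hk : k + 2 ≤ n) :
    2 * (evd c).card = (n - k).factorial := by
  classical
  let p : Fin n → Prop := fun x => c x = x
  have hcard : Fintype.card (Subtype p) = n - k := by
    rw [Fintype.card_subtype]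
    have h1 : (Finset.univ.filter p) = (c.support)ᶜ := by
      ext x
      simp [p]
    rw [h1, Finset.card_compl, Fintype.card_fin, hc]
  have hnt : Nontrivial (Subtype p) := by
    rw [← Fintype.one_lt_card_iff_nontrivial, hcard]
    omega
  have himg : evd c = Finset.univ.image
      (fun r : alternatingGroup (Subtype p) => Perm.ofSubtype (r : Perm (Subtype p))) := by
    ext r
    simp only [evd, Finset.mem_filter, Finset.mem_univ, true_and, Finset.mem_image]
    constructor
    · rintro ⟨h1, h2⟩
      have h3 : ∀ a, ¬ p a → r a = a := by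
        intro a ha
        rcases h1 a with h | h
        · exact absurd h ha
        · exact h
      let e := Perm.subtypeEquivSubtypePerm p
      have h4 : Perm.ofSubtype (e.symm ⟨r, h3⟩) = r := by
        have := congrArg Subtype.val (e.apply_symm_apply ⟨r, h3⟩)
        exact this
      refine ⟨⟨e.symm ⟨r, h3⟩, ?_⟩, h4⟩
      rw [Perm.mem_alternatingGroup, ← Perm.sign_ofSubtype, h4, h2]
    · rintro ⟨r', rfl⟩
      constructor
      · intro x
        by_cases hx : c x = x
        · exact Or.inl hx
        · right
          exact Perm.ofSubtype_apply_of_not_mem _ hx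
      · rw [Perm.sign_ofSubtype]
        exact Perm.mem_alternatingGroup.mp r'.2
  rw [himg, Finset.card_image_of_injective, Finset.card_univ]
  · have h5 := two_mul_card_alternatingGroup (α := Subtype p)
    rw [Fintype.card_perm, hcard] at h5
    exact h5
  · intro a b hab
    exact Subtype.ext (Perm.ofSubtype_injective hab)

/-- The index set. -/
noncomputable def idx (n J : ℕ) : Finset ((_ : ℕ) × ((_ : Perm (Fin n)) × Perm (Fin n))) :=
  (Finset.range J).sigma (fun j => (cyc n (n - 2 * (j + 1))).sigma (fun c => evd c))

theorem card_idx (n J : ℕ) (hJ : 2 * J + 2 ≤ n) :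
    J * n.factorial ≤ 2 * n * (idx n J).card := by
  unfold idx
  rw [Finset.card_sigma, Finset.mul_sum]
  have h : ∀ j ∈ Finset.range J, n.factorial ≤
      2 * n * ((cyc n (n - 2 * (j + 1))).sigma (fun c => evd c)).card := by
    intro j hj
    rw [Finset.mem_range] at hj
    set k := n - 2 * (j + 1) with hk
    have hk1 : 2 ≤ k := by omega
    have hk2 : k + 2 ≤ n := by omega
    rw [Finset.card_sigma]
    have h1 : 2 * ∑ c ∈ cyc n k, (evd c).card = (cyc n k).card * (n - k).factorial := by
      rw [Finset.mul_sum, Finset.sum_congr rfl (fun c hc => card_evd c (mem_cyc hc).2 hk2)]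
      simp
    calc n.factorial = n.choose k * k.factorial * (n - k).factorial :=
          (Nat.choose_mul_factorial_mul_factorial (by omega)).symm
      _ = k * ((k - 1).factorial * n.choose k * (n - k).factorial) := by
          rw [← Nat.mul_factorial_pred (show k ≠ 0 by omega)]
          ring
      _ = k * (2 * ∑ c ∈ cyc n k, (evd c).card) := by
          rw [h1, card_cyc hk1 (by omega)]
      _ ≤ n * (2 * ∑ c ∈ cyc n k, (evd c).card) := Nat.mul_le_mul_right _ (by omega)
      _ = 2 * n * ∑ c ∈ cyc n k, (evd c).card := by ring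
  calc J * n.factorial = ∑ _j ∈ Finset.range J, n.factorial := by simp
    _ ≤ _ := Finset.sum_le_sum h

theorem card_goodSet (n J : ℕ) (hn : Odd n) (hJ : 4 * J < n) :
    J * n.factorial ≤ 2 * n * (goodSet n (2 * J)).card := by
  classical
  rcases Nat.eq_zero_or_pos J with rfl | hJ0
  · simp
  refine (card_idx n J (by omega)).trans (Nat.mul_le_mul_left _ ?_)
  refine Finset.card_le_card_of_injOn (fun t => t.2.1 * t.2.2) ?_ ?_
  · rintro ⟨j, c, r⟩ ht
    simp only [idx, Finset.coe_sigma, Set.mem_sigma_iff, Finset.mem_coe, Finset.mem_range] at ht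
    obtain ⟨hj, hc, hr⟩ := ht
    obtain ⟨hc1, hc2⟩ := mem_cyc hc
    simp only [evd, Finset.mem_filter, Finset.mem_univ, true_and] at hr
    obtain ⟨hr1, hr2⟩ := hr
    simp only [goodSet, Finset.coe_filter, Finset.mem_univ, true_and, Set.mem_ofPred_eq]
    constructor
    · rw [map_mul, hr2, mul_one, hc1.sign, hc2]
      have : Odd (n - 2 * (j + 1)) := Nat.Odd.sub_even (by omega) hn (even_two_mul _)
      rw [this.neg_one_pow]
      simp
    · refine ⟨n - 2 * (j + 1), by omega, by omega, ?_⟩
      rw [hr1.commute.mul_pow]
      have h1 : c ^ (n - 2 * (j + 1)) = 1 := by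
        have := pow_orderOf_eq_one c
        rwa [hc1.orderOf, hc2] at this
      rw [h1, one_mul]
      refine (Finset.card_le_card (Perm.support_pow_le _ _)).trans ?_
      have h2 := Perm.disjoint_iff_disjoint_support.mp hr1
      have h3 := Finset.card_union_of_disjoint h2
      have h4 : (c.support ∪ r.support).card ≤ n := by
        simpa using Finset.card_le_univ (c.support ∪ r.support)
      omega
  · rintro ⟨j, c, r⟩ ht ⟨j', c', r'⟩ ht' heq
    simp only [idx, Finset.coe_sigma, Set.mem_sigma_iff, Finset.mem_coe, Finset.mem_range] at ht ht'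
    obtain ⟨hj, hc, hr⟩ := ht
    obtain ⟨hj', hc', hr'⟩ := ht'
    obtain ⟨hc1, hc2⟩ := mem_cyc hc
    obtain ⟨hc1', hc2'⟩ := mem_cyc hc'
    simp only [evd, Finset.mem_filter, Finset.mem_univ, true_and] at hr hr'
    simp only at heq
    have hint : ∃ x, x ∈ c.support ∧ x ∈ c'.support := by
      by_contra hcon
      push Not at hcon
      have hd : _root_.Disjoint c.support c'.support := by
        rw [Finset.disjoint_left]
        exact hcon
      have h3 := Finset.card_union_of_disjoint hd
      have h4 : (c.support ∪ c'.support).card ≤ n := by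
        simpa using Finset.card_le_univ (c.support ∪ c'.support)
      omega
    obtain ⟨x, hx, hx'⟩ := hint
    rw [Perm.mem_support] at hx hx'
    have e1 : (c * r).cycleOf x = c := by
      rw [Perm.cycleOf_mul_of_apply_right_eq_self hr.1.commute x ((hr.1 x).resolve_left hx)]
      exact hc1.cycleOf_eq hx
    have e2 : (c' * r').cycleOf x = c' := by
      rw [Perm.cycleOf_mul_of_apply_right_eq_self hr'.1.commute x ((hr'.1 x).resolve_left hx')]
      exact hc1'.cycleOf_eq hx'
    have e3 : c = c' := by
      rw [← e1, heq, e2]
    subst e3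
    have e4 : r = r' := mul_left_cancel heq
    subst e4
    have e5 : j = j' := by omega
    subst e5
    rfl

end Pool.Agent.Helper172.GC
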