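import Mathlib

/-!
Words for the disproof: positive words in two letters, and the commutator of a power of a third
letter with a quotient of two such words.
-/

set_option autoImplicit false

namespace Pool.Agent.Helper172.GC

open Equiv

/-- The positive word in the letters `1` and `2` coded by a list of booleans. -/
def wd : List Bool → FreeGroup (Fin 3)
  | [] => 1
  | b :: l => FreeGroup.of (if b then 1 else 2) * wd l

theorem norm_wd (l : List Bool) : (wd l).norm ≤ l.length := by
  induction l with
  | nil => simp [wd]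
  | cons b l ih =>
    simp only [wd, List.length_cons]
    refine (FreeGroup.norm_mul_le _ _).trans ?_
    rw [FreeGroup.norm_of]
    omega

/-- The map `t ↦ 2 t + d` on the rationals. -/
noncomputable def aff (d : ℚ) : Perm ℚ where
  toFun t := 2 * t + d
  invFun t := (t - d) / 2
  left_inv t := by ring
  right_inv t := by ring

/-- A permutation acting on the layer `0`. -/
def lay (e : Perm ℚ) : Perm (ℚ × ℤ) where
  toFun p := (if p.2 = 0 then e p.1 else p.1, p.2)
  invFun p := (if p.2 = 0 then e.symm p.1 else p.1, p.2)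
  left_inv p := by
    rcases p with ⟨t, k⟩
    by_cases hk : k = 0 <;> simp [hk]
  right_inv p := by
    rcases p with ⟨t, k⟩
    by_cases hk : k = 0 <;> simp [hk]

/-- The shift of the layers. -/
def shift : Perm (ℚ × ℤ) where
  toFun p := (p.1, p.2 + 1)
  invFun p := (p.1, p.2 - 1)
  left_inv p := by simp
  right_inv p := by simp

/-- The test homomorphism. -/
noncomputable def tst : FreeGroup (Fin 3) →* Perm (ℚ × ℤ) :=
  FreeGroup.lift (fun i => if i = 0 then shift else if i = 1 then lay (aff 0) else lay (aff 1))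

/-- The value of a code. -/
def val : List Bool → ℕ
  | [] => 0
  | b :: l => 2 * val l + (if b then 0 else 1)

theorem val_inj : ∀ (l l' : List Bool), l.length = l'.length → val l = val l' → l = l' := by
  intro l
  induction l with
  | nil =>
    intro l' h _
    cases l' with
    | nil => rfl
    | cons b l' => simp at h
  | cons b l ih =>
    intro l' h hv
    cases l' with
    | nil => simp at h
    | cons b' l' =>
      simp only [List.length_cons, Nat.add_right_cancel_iff] at h
      simp only [val] at hv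
      have h1 : val l = val l' := by
        cases b <;> cases b' <;> simp at hv <;> omega
      have h2 : b = b' := by
        cases b <;> cases b' <;> simp at hv <;> first | rfl | omega
      rw [ih l' h h1, h2]

theorem tst_of (i : Fin 3) : tst (FreeGroup.of i) =
    if i = 0 then shift else if i = 1 then lay (aff 0) else lay (aff 1) := by
  simp [tst]

theorem tst_wd_zero (l : List Bool) : tst (wd l) (0, 0) = ((val l : ℚ), 0) := by
  induction l with
  | nil => simp [wd, val]
  | cons b l ih =>
    cases b
    · simp [wd, val, map_mul, tst_of, ih, lay, aff]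
    · simp [wd, val, map_mul, tst_of, ih, lay, aff]

theorem tst_wd_ne (l : List Bool) (t : ℚ) (k : ℤ) (hk : k ≠ 0) : tst (wd l) (t, k) = (t, k) := by
  induction l with
  | nil => simp [wd]
  | cons b l ih =>
    cases b
    · simp [wd, map_mul, tst_of, ih, lay, hk]
    · simp [wd, map_mul, tst_of, ih, lay, hk]

theorem tst_shift_pow (m : ℕ) (t : ℚ) (k : ℤ) : (tst (FreeGroup.of 0) ^ m) (t, k) = (t, k + m) := by
  rw [tst_of, if_pos rfl]
  induction m with
  | zero => simp
  | succ m ih =>
    rw [pow_succ', Perm.mul_apply, ih]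
    simp [shift, add_assoc]

/-- The relation word. -/
def rel (m : ℕ) (l l' : List Bool) : FreeGroup (Fin 3) :=
  FreeGroup.of 0 ^ m * ((wd l)⁻¹ * wd l') * (FreeGroup.of 0 ^ m)⁻¹ * ((wd l)⁻¹ * wd l')⁻¹

theorem rel_ne_one (m : ℕ) (hm : m ≠ 0) (l l' : List Bool) (hl : l.length = l'.length)
    (hne : l ≠ l') : rel m l l' ≠ 1 := by
  intro h
  apply hne
  apply val_inj l l' hl
  have h1 : FreeGroup.of 0 ^ m * ((wd l)⁻¹ * wd l') = ((wd l)⁻¹ * wd l') * FreeGroup.of 0 ^ m := by
    have h2 : rel m l l' * (((wd l)⁻¹ * wd l') * FreeGroup.of 0 ^ m) =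
        FreeGroup.of 0 ^ m * ((wd l)⁻¹ * wd l') := by
      unfold rel
      group
    rw [h, one_mul] at h2
    exact h2.symm
  have h3 := congrArg (fun w => tst w (0, 0)) h1
  simp only [map_mul, map_pow, map_inv, Perm.mul_apply] at h3
  have h6 : (tst (FreeGroup.of 0) ^ m) (0, 0) = (0, (m : ℤ)) := by
    rw [tst_shift_pow, zero_add]
  rw [h6, tst_wd_ne l' 0 (m : ℤ) (by exact_mod_cast hm)] at h3
  have h4 : (tst (wd l))⁻¹ (0, (m : ℤ)) = (0, (m : ℤ)) := by
    rw [Perm.inv_eq_iff_eq]
    exact (tst_wd_ne l 0 (m : ℤ) (by exact_mod_cast hm)).symm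
  rw [h4] at h3
  have h5 : (tst (wd l))⁻¹ (tst (wd l') (0, 0)) = (0, 0) :=
    (tst (FreeGroup.of 0) ^ m).injective (h3.trans h6.symm)
  rw [Perm.inv_eq_iff_eq, tst_wd_zero, tst_wd_zero] at h5
  have h7 := congrArg Prod.fst h5
  simp only at h7
  exact_mod_cast h7.symm

theorem norm_rel (m : ℕ) (l l' : List Bool) (hl : l.length = l'.length) :
    (rel m l l').norm ≤ 2 * m + 4 * l.length := by
  unfold rel
  have h1 := norm_wd l
  have h2 := norm_wd l'
  have h3 : ((wd l)⁻¹ * wd l').norm ≤ 2 * l.length := by
    refine (FreeGroup.norm_mul_le _ _).trans ?_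
    rw [FreeGroup.norm_inv_eq]
    omega
  have h4 : (FreeGroup.of (0 : Fin 3) ^ m).norm = m := FreeGroup.norm_of_pow _ _
  refine (FreeGroup.norm_mul_le _ _).trans ?_
  rw [FreeGroup.norm_inv_eq]
  have h5 := FreeGroup.norm_mul_le (FreeGroup.of (0 : Fin 3) ^ m * ((wd l)⁻¹ * wd l'))
    (FreeGroup.of (0 : Fin 3) ^ m)⁻¹
  rw [FreeGroup.norm_inv_eq, h4] at h5
  have h6 := FreeGroup.norm_mul_le (FreeGroup.of (0 : Fin 3) ^ m) ((wd l)⁻¹ * wd l')
  rw [h4] at h6
  omega

/-- If a power of `σ` has small support then there is a short relation. -/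
theorem exists_rel {n : ℕ} (H : Subgroup (Perm (Fin n))) (g : Fin 3 → H) (m : ℕ) (hm : m ≠ 0)
    (R : ℕ)
    (hR : n ^ (((g 0 : H) : Perm (Fin n)) ^ m).support.card < 2 ^ R) :
    ∃ w : FreeGroup (Fin 3), w ≠ 1 ∧ w.norm ≤ 2 * m + 4 * R ∧ FreeGroup.lift g w = 1 := by
  classical
  set T := (((g 0 : H) : Perm (Fin n)) ^ m).support with hT
  let f : List.Vector Bool R → (T → Fin n) := fun v x =>
    ((FreeGroup.lift g (wd v.toList) : H) : Perm (Fin n)) x
  have hcard : Fintype.card (T → Fin n) < Fintype.card (List.Vector Bool R) := by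
    rw [Fintype.card_fun, Fintype.card_fin, Fintype.card_coe, card_vector, Fintype.card_bool]
    exact hR
  obtain ⟨v, v', hne, hf⟩ := Fintype.exists_ne_map_eq_of_card_lt f hcard
  have hlen : v.toList.length = v'.toList.length := by
    rw [v.toList_length, v'.toList_length]
  refine ⟨rel m v.toList v'.toList, ?_, ?_, ?_⟩
  · apply rel_ne_one m hm _ _ hlen
    intro h
    exact hne (List.Vector.eq _ _ h)
  · have := norm_rel m v.toList v'.toList hlen
    rw [v.toList_length] at this
    exact this
  · set u : H := (FreeGroup.lift g (wd v.toList))⁻¹ * FreeGroup.lift g (wd v'.toList) with hu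
    have hfix : ∀ x ∈ T, ((u : H) : Perm (Fin n)) x = x := by
      intro x hx
      have h1 := congrFun hf ⟨x, hx⟩
      simp only [f] at h1
      rw [hu]
      simp only [Subgroup.coe_mul, Subgroup.coe_inv, Perm.mul_apply]
      rw [Perm.inv_eq_iff_eq]
      exact h1.symm
    have hdis : Perm.Disjoint (((g 0 : H) : Perm (Fin n)) ^ m) ((u : H) : Perm (Fin n)) := by
      intro x
      by_cases hx : x ∈ T
      · exact Or.inr (hfix x hx)
      · left
        rw [hT, Perm.notMem_support] at hx
        exact hx
    have hcomm : (g 0) ^ m * u = u * (g 0) ^ m := by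
      apply Subtype.ext
      simpa using hdis.commute.eq
    have hrel : FreeGroup.lift g (rel m v.toList v'.toList) =
        (g 0) ^ m * u * ((g 0) ^ m)⁻¹ * u⁻¹ := by
      simp [rel, hu]
    rw [hrel, hcomm]
    group

end Pool.Agent.Helper172.GC
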