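import Mathlib
import Pool.Agent.Helper172.GC.Words
import Pool.Agent.Helper172.GC.Count

/-!
Random elements of alternating groups: with probability bounded away from zero the girth is
smaller than `c log |G|`.
-/

set_option autoImplicit false

namespace Pool.Agent.Helper172.GC

open Equiv Equiv.Perm

theorem exists_noncomm {n : ℕ} (hn : 4 ≤ n) :
    ∃ a b : alternatingGroup (Fin n), a * b ≠ b * a := by
  by_contra hcon
  push Not at hcon
  have h1 : IsMulCommutative (alternatingGroup (Fin n)) := ⟨⟨hcon⟩⟩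
  rw [alternatingGroup.isMulCommutative_iff_card_le_three] at h1
  simp at h1
  omega

theorem log_card_lower {n : ℕ} (hn : 2 ≤ n) :
    (n : ℝ) * Real.log n - n - Real.log 2 ≤
      Real.log (Fintype.card (alternatingGroup (Fin n))) := by
  have hnt : Nontrivial (Fin n) := Fin.nontrivial_iff_two_le.mpr hn
  have h1 := two_mul_card_alternatingGroup (α := Fin n)
  rw [Fintype.card_perm, Fintype.card_fin] at h1
  have h2 : (2 : ℝ) * Fintype.card (alternatingGroup (Fin n)) = (n.factorial : ℝ) := by
    exact_mod_cast h1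
  have hpos : (0 : ℝ) < Fintype.card (alternatingGroup (Fin n)) := by
    exact_mod_cast Fintype.card_pos
  have h3 : Real.log (n.factorial : ℝ) = Real.log 2 +
      Real.log (Fintype.card (alternatingGroup (Fin n))) := by
    rw [← h2, Real.log_mul (by norm_num) hpos.ne']
  have hn0 : (0 : ℝ) < n := by
    have : 0 < n := by omega
    exact_mod_cast this
  have h4 : (n : ℝ) ^ n / (n.factorial : ℝ) ≤ Real.exp n :=
    Real.pow_div_factorial_le_exp (n : ℝ) hn0.le n
  have hf : (0 : ℝ) < (n.factorial : ℝ) := by exact_mod_cast n.factorial_pos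
  have h5 : Real.log ((n : ℝ) ^ n / (n.factorial : ℝ)) ≤ n := by
    rw [Real.log_le_iff_le_exp (by positivity)]
    exact h4
  rw [Real.log_div (by positivity) hf.ne', Real.log_pow, h3] at h5
  linarith

/-- The tuples without short relations. -/
def NoShort (n : ℕ) (B : ℝ) (g : Fin 3 → alternatingGroup (Fin n)) : Prop :=
  ∀ w : FreeGroup (Fin 3), w ≠ 1 → (w.norm : ℝ) < B → FreeGroup.lift g w ≠ 1

theorem not_goodSet {n J : ℕ} (hn : 1 ≤ n) {B : ℝ}
    (hB : (2 * n + 4 * ((Nat.log 2 n + 1) * (2 * J) + 1) : ℝ) < B)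
    (g : Fin 3 → alternatingGroup (Fin n)) (hg : NoShort n B g) :
    ((g 0 : alternatingGroup (Fin n)) : Perm (Fin n)) ∉ goodSet n (2 * J) := by
  classical
  intro h
  simp only [goodSet, Finset.mem_filter, Finset.mem_univ, true_and] at h
  obtain ⟨_, m, hm0, hmn, hm⟩ := h
  set L := Nat.log 2 n + 1 with hL
  have hR : n ^ (((g 0 : alternatingGroup (Fin n)) : Perm (Fin n)) ^ m).support.card <
      2 ^ (L * (2 * J) + 1) := by
    calc n ^ (((g 0 : alternatingGroup (Fin n)) : Perm (Fin n)) ^ m).support.card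
        ≤ n ^ (2 * J) := Nat.pow_le_pow_right hn hm
      _ ≤ (2 ^ L) ^ (2 * J) := Nat.pow_le_pow_left (Nat.lt_pow_succ_log_self (by norm_num) n).le _
      _ = 2 ^ (L * (2 * J)) := by rw [← pow_mul]
      _ < 2 ^ (L * (2 * J) + 1) := Nat.pow_lt_pow_right (by norm_num) (by omega)
  obtain ⟨w, hw1, hw2, hw3⟩ := exists_rel (alternatingGroup (Fin n)) g m hm0 _ hR
  refine hg w hw1 ?_ hw3
  refine lt_of_le_of_lt ?_ hB
  have h1 : w.norm ≤ 2 * n + 4 * (L * (2 * J) + 1) := by omega
  have h2 : (w.norm : ℝ) ≤ ((2 * n + 4 * (L * (2 * J) + 1) : ℕ) : ℝ) := by exact_mod_cast h1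
  refine h2.trans (le_of_eq ?_)
  rw [hL]
  push_cast
  ring

theorem card_noShort {n J : ℕ} (hn : 2 ≤ n) (hodd : Odd n) (hJ : 4 * J < n) {B : ℝ}
    (hB : (2 * n + 4 * ((Nat.log 2 n + 1) * (2 * J) + 1) : ℝ) < B) :
    (n : ℝ) * (Nat.card {g : Fin 3 → alternatingGroup (Fin n) // NoShort n B g} : ℝ) ≤
      (n - J : ℝ) * (Fintype.card (alternatingGroup (Fin n)) : ℝ) ^ 3 := by
  classical
  have hnt : Nontrivial (Fin n) := Fin.nontrivial_iff_two_le.mpr hn
  set G := alternatingGroup (Fin n) with hG
  let A : Finset G := Finset.univ.filter (fun x : G => (x : Perm (Fin n)) ∈ goodSet n (2 * J))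
  have hA : A.card = (goodSet n (2 * J)).card := by
    refine Finset.card_bij (fun x _ => (x : Perm (Fin n))) ?_ ?_ ?_
    · intro x hx
      simpa [A] using hx
    · intro x _ y _ h
      exact Subtype.ext h
    · intro y hy
      have hy' := hy
      simp only [goodSet, Finset.mem_filter, Finset.mem_univ, true_and] at hy'
      refine ⟨⟨y, Perm.mem_alternatingGroup.mpr hy'.1⟩, ?_, rfl⟩
      simpa [A] using hy
  have h1 := card_goodSet n J hodd hJ
  rw [← hA] at h1
  have h2 := two_mul_card_alternatingGroup (α := Fin n)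
  rw [Fintype.card_perm, Fintype.card_fin] at h2
  rw [← h2] at h1
  have h3 : J * Fintype.card G ≤ n * A.card := by
    have : 2 * (J * Fintype.card G) ≤ 2 * (n * A.card) := by
      calc 2 * (J * Fintype.card G) = J * (2 * Fintype.card G) := by ring
        _ ≤ 2 * n * A.card := h1
        _ = 2 * (n * A.card) := by ring
    omega
  -- the injection
  have h4 : Nat.card {g : Fin 3 → G // NoShort n B g} ≤ Aᶜ.card * (Fintype.card G * Fintype.card G) := by
    have e1 : Nat.card ({x : G // x ∈ Aᶜ} × (G × G)) = Aᶜ.card * (Fintype.card G * Fintype.card G) := by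
      rw [Nat.card_eq_fintype_card, Fintype.card_prod, Fintype.card_prod, Fintype.card_coe]
    rw [← e1]
    let f : {g : Fin 3 → G // NoShort n B g} → ({x : G // x ∈ Aᶜ} × (G × G)) := fun g =>
      (⟨g.1 0, by
        rw [Finset.mem_compl]
        intro hmem
        have := not_goodSet (by omega) hB g.1 g.2
        apply this
        simpa [A] using hmem⟩, (g.1 1, g.1 2))
    refine Nat.card_le_card_of_injective f ?_
    rintro ⟨g, hg⟩ ⟨g', hg'⟩ h
    simp only [f, Prod.mk.injEq, Subtype.mk.injEq] at h
    apply Subtype.ext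
    funext i
    fin_cases i
    · exact h.1
    · exact h.2.1
    · exact h.2.2
  have h5 : Aᶜ.card = Fintype.card G - A.card := Finset.card_compl A
  have h6 : A.card ≤ Fintype.card G := Finset.card_le_univ A
  have h7 : ((Aᶜ.card : ℕ) : ℝ) = (Fintype.card G : ℝ) - A.card := by
    rw [h5, Nat.cast_sub h6]
  have h8 : (J : ℝ) * Fintype.card G ≤ n * A.card := by exact_mod_cast h3
  have h9 : (Nat.card {g : Fin 3 → G // NoShort n B g} : ℝ) ≤
      ((Fintype.card G : ℝ) - A.card) * (Fintype.card G * Fintype.card G) := by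
    rw [← h7]
    exact_mod_cast h4
  have hGpos : (0 : ℝ) ≤ Fintype.card G := Nat.cast_nonneg _
  have hn0 : (0 : ℝ) ≤ n := Nat.cast_nonneg _
  calc (n : ℝ) * (Nat.card {g : Fin 3 → G // NoShort n B g} : ℝ)
      ≤ n * (((Fintype.card G : ℝ) - A.card) * (Fintype.card G * Fintype.card G)) :=
        mul_le_mul_of_nonneg_left h9 hn0
    _ = (n * Fintype.card G - n * A.card) * (Fintype.card G * Fintype.card G) := by ring
    _ ≤ (n * Fintype.card G - J * Fintype.card G) * (Fintype.card G * Fintype.card G) := by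
        apply mul_le_mul_of_nonneg_right _ (by positivity)
        linarith
    _ = (n - J : ℝ) * (Fintype.card G : ℝ) ^ 3 := by ring

theorem main (c : ℝ) (hc : 0 < c) : ∃ ε : ℝ, 0 < ε ∧ ∀ N : ℕ, ∃ n : ℕ, 5 ≤ n ∧
    N ≤ Fintype.card (alternatingGroup (Fin n)) ∧
    (Nat.card {g : Fin 3 → alternatingGroup (Fin n) //
      NoShort n (c * Real.log (Fintype.card (alternatingGroup (Fin n)))) g} : ℝ) <
    (1 - ε) * (Fintype.card (alternatingGroup (Fin n)) : ℝ) ^ 3 := by
  obtain ⟨q, hq⟩ := exists_nat_ge (16 / (c * Real.log 2) + 2)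
  have hlog2 : 0 < Real.log 2 := Real.log_pos (by norm_num)
  have hq2 : (2 : ℝ) ≤ q := by
    have : 0 ≤ 16 / (c * Real.log 2) := by positivity
    linarith
  have hq2' : 2 ≤ q := by exact_mod_cast hq2
  have hqc : 4 / (q * Real.log 2) ≤ c / 4 := by
    have h1 : 16 / (c * Real.log 2) ≤ q := by linarith
    rw [div_le_iff₀ (by positivity)] at h1
    rw [div_le_div_iff₀ (by positivity) (by norm_num)]
    linarith
  refine ⟨1 / (6 * q), by positivity, ?_⟩
  intro N
  obtain ⟨J0, hJ0⟩ := exists_nat_ge (Real.exp (4 / (3 * c) * (10 + 2 * c)))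
  set J := J0 + N + 3 with hJdef
  set n := 2 * q * J + 1 with hn
  have hJn : 4 * J < n := by nlinarith
  have hn5 : 5 ≤ n := by omega
  have hodd : Odd n := ⟨q * J, by rw [hn]; ring⟩
  have hn0 : (0 : ℝ) < n := by
    have : 0 < n := by omega
    exact_mod_cast this
  have hnt : Nontrivial (Fin n) := Fin.nontrivial_iff_two_le.mpr (by omega)
  refine ⟨n, hn5, ?_, ?_⟩
  · have h1 := two_mul_card_alternatingGroup (α := Fin n)
    rw [Fintype.card_perm, Fintype.card_fin] at h1
    have h2 : n.factorial = n * (n - 1).factorial := (Nat.mul_factorial_pred (by omega)).symm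
    have h3 : 2 ≤ (n - 1).factorial := (by omega : 2 ≤ n - 1).trans (Nat.self_le_factorial _)
    have h4 : n * 2 ≤ n.factorial := by
      rw [h2]
      exact Nat.mul_le_mul_left _ h3
    omega
  · -- the real inequality
    have hlogn : 4 / (3 * c) * (10 + 2 * c) < Real.log n := by
      rw [Real.lt_log_iff_exp_lt hn0]
      refine lt_of_le_of_lt hJ0 ?_
      have : J0 < n := by omega
      exact_mod_cast this
    have hlogn' : 10 + 2 * c < 3 * c / 4 * Real.log n := by
      have h1 : 3 * c / 4 * (4 / (3 * c) * (10 + 2 * c)) = 10 + 2 * c := by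
        field_simp
      rw [← h1]
      exact mul_lt_mul_of_pos_left hlogn (by positivity)
    have hL : ((Nat.log 2 n : ℕ) : ℝ) ≤ Real.log n / Real.log 2 := by
      have := Real.natLog_le_logb n 2
      simpa [Real.logb] using this
    have hJq : (2 * J : ℝ) ≤ n / q := by
      rw [le_div_iff₀ (by linarith)]
      have : 2 * J * q ≤ n := by rw [hn]; nlinarith
      exact_mod_cast this
    have hlogpos : 0 ≤ Real.log n := Real.log_nonneg (by
      have : 1 ≤ n := by omega
      exact_mod_cast this)
    have hB : (2 * n + 4 * ((Nat.log 2 n + 1) * (2 * J) + 1) : ℝ) <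
        c * Real.log (Fintype.card (alternatingGroup (Fin n))) := by
      have h1 := log_card_lower (n := n) (by omega)
      have h2 : c * ((n : ℝ) * Real.log n - n - Real.log 2) ≤
          c * Real.log (Fintype.card (alternatingGroup (Fin n))) :=
        mul_le_mul_of_nonneg_left h1 hc.le
      refine lt_of_lt_of_le ?_ h2
      have h3 : ((Nat.log 2 n : ℕ) + 1 : ℝ) * (2 * J) ≤
          (Real.log n / Real.log 2 + 1) * (n / q) := by
        apply mul_le_mul (by linarith) hJq (by positivity) (by positivity)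
      have h4 : 4 * ((Real.log n / Real.log 2 + 1) * (n / q)) =
          (4 / (q * Real.log 2)) * (n * Real.log n) + 4 * n / q := by
        field_simp
      have h5 : (4 / (q * Real.log 2)) * (n * Real.log n) ≤ c / 4 * (n * Real.log n) :=
        mul_le_mul_of_nonneg_right hqc (by positivity)
      have h6 : 4 * (n : ℝ) / q ≤ 2 * n := by
        rw [div_le_iff₀ (by linarith)]
        nlinarith
      have h7 : Real.log 2 ≤ n := by
        have := Real.log_two_lt_d9
        have h8 : (5 : ℝ) ≤ n := by exact_mod_cast hn5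
        linarith
      have h8 : (5 : ℝ) ≤ n := by exact_mod_cast hn5
      have h9 : n * (10 + 2 * c) < n * (3 * c / 4 * Real.log n) :=
        mul_lt_mul_of_pos_left hlogn' hn0
      have h10 : c * Real.log 2 ≤ c * n := mul_le_mul_of_nonneg_left h7 hc.le
      nlinarith
    have h11 := card_noShort (by omega) hodd hJn hB
    set X : ℝ := (Nat.card {g : Fin 3 → alternatingGroup (Fin n) //
      NoShort n (c * Real.log (Fintype.card (alternatingGroup (Fin n)))) g} : ℝ) with hX
    set Y : ℝ := (Fintype.card (alternatingGroup (Fin n)) : ℝ) ^ 3 with hY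
    have hYpos : 0 < Y := by
      have : 0 < Fintype.card (alternatingGroup (Fin n)) := Fintype.card_pos
      positivity
    have h12 : (n : ℝ) ≤ 3 * q * J := by
      have : n ≤ 3 * q * J := by
        rw [hn]
        have : 1 ≤ q * J := Nat.one_le_iff_ne_zero.mpr (by positivity)
        nlinarith
      exact_mod_cast this
    have hJpos : (0 : ℝ) < J := by
      have : 0 < J := by omega
      exact_mod_cast this
    -- n X ≤ (n - J) Y < (1 - 1/(6q)) n Y
    have h13 : (n : ℝ) * X < n * ((1 - 1 / (6 * q)) * Y) := by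
      refine lt_of_le_of_lt h11 ?_
      have h14 : (n : ℝ) * ((1 - 1 / (6 * q)) * Y) = (n - n / (6 * q)) * Y := by ring
      rw [h14]
      apply mul_lt_mul_of_pos_right _ hYpos
      have h15 : (n : ℝ) / (6 * q) < J := by
        rw [div_lt_iff₀ (by positivity)]
        have : 0 < (q : ℝ) * J := by positivity
        nlinarith
      linarith
    exact lt_of_mul_lt_mul_left h13 hn0.le

end Pool.Agent.Helper172.GC
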